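import Mathlib

set_option autoImplicit false

/-! # The refinement order on the partitions of an integer -/

namespace Pool.Agent.K1H55.MB

open Multiset

/-- `Ref l r`: the parts of `l` can be split into blocks whose sums are the parts of `r`. -/
def Ref (l r : Multiset ℕ) : Prop :=
  ∃ P : Multiset (Multiset ℕ), P.sum = l ∧ P.map Multiset.sum = r

lemma Ref.refl (l : Multiset ℕ) : Ref l l :=
  ⟨l.map (fun a => {a}), by simp, by simp⟩

lemma Ref.single (l : Multiset ℕ) : Ref l {l.sum} := ⟨{l}, by simp, by simp⟩

lemma Ref.add {l r l' r' : Multiset ℕ} (h : Ref l r) (h' : Ref l' r') : Ref (l + l') (r + r') := by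
  obtain ⟨P, h1, h2⟩ := h
  obtain ⟨Q, h3, h4⟩ := h'
  exact ⟨P + Q, by rw [Multiset.sum_add, h1, h3], by rw [Multiset.map_add, h2, h4]⟩

lemma Ref.ones (r : Multiset ℕ) : Ref (replicate r.sum 1) r := by
  induction r using Multiset.induction with
  | empty => simpa using Ref.refl 0
  | cons a r ih =>
    have h := (Ref.single (replicate a 1)).add ih
    simpa [Multiset.replicate_add] using h

lemma map_split {α β : Type} (f : α → β) (P : Multiset α) (q s : Multiset β)
    (h : P.map f = q + s) : ∃ P1 P2, P = P1 + P2 ∧ P1.map f = q ∧ P2.map f = s := by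
  classical
  induction q using Multiset.induction generalizing P with
  | empty => exact ⟨0, P, by simp, by simp, by simpa using h⟩
  | cons b q ih =>
    have hb : b ∈ P.map f := by rw [h]; simp
    obtain ⟨a, ha, rfl⟩ := Multiset.mem_map.1 hb
    obtain ⟨P', rfl⟩ := Multiset.exists_cons_of_mem ha
    have h' : P'.map f = q + s := by
      rw [Multiset.map_cons, Multiset.cons_add] at h
      exact (Multiset.cons_inj_right _).1 h
    obtain ⟨P1, P2, rfl, h2, h3⟩ := ih P' h'
    exact ⟨a ::ₘ P1, P2, by simp, by simp [h2], h3⟩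

lemma lift {α β : Type} (f : α → β) (Q : Multiset (Multiset β)) (P : Multiset α)
    (h : P.map f = Q.sum) :
    ∃ R : Multiset (Multiset α), R.sum = P ∧ R.map (fun B => B.map f) = Q := by
  induction Q using Multiset.induction generalizing P with
  | empty => exact ⟨0, by simpa using (show P = 0 by simpa using h).symm, by simp⟩
  | cons q Q ih =>
    rw [Multiset.sum_cons] at h
    obtain ⟨P1, P2, rfl, h2, h3⟩ := map_split f P q Q.sum h
    obtain ⟨R, h4, h5⟩ := ih P2 h3
    exact ⟨P1 ::ₘ R, by simp [h4], by simp [h2, h5]⟩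

lemma Ref.trans {l s r : Multiset ℕ} (h : Ref l s) (h' : Ref s r) : Ref l r := by
  obtain ⟨P, h1, h2⟩ := h
  obtain ⟨Q, h3, h4⟩ := h'
  obtain ⟨R, h5, h6⟩ := lift Multiset.sum Q P (h2.trans h3.symm)
  refine ⟨R.map Multiset.sum, ?_, ?_⟩
  · rw [← h1, ← h5]
    clear h5 h6
    induction R using Multiset.induction with
    | empty => simp
    | cons B R ih => simp [ih]
  · rw [← h4, ← h6]
    clear h5 h6
    induction R using Multiset.induction with
    | empty => simp
    | cons B R ih =>
      simp only [Multiset.map_cons, ih]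
      congr 1
      induction B using Multiset.induction with
      | empty => simp
      | cons C B ih' => simp [ih']

lemma Ref.card_le {l r : Multiset ℕ} (h : Ref l r) (hr : ∀ a ∈ r, 0 < a) :
    card r ≤ card l ∧ (card r = card l → l = r) := by
  obtain ⟨P, rfl, rfl⟩ := h
  induction P using Multiset.induction with
  | empty => simp
  | cons B P ih =>
    have h1 : ∀ a ∈ P.map Multiset.sum, 0 < a := fun a ha => hr a (by
      rw [Multiset.map_cons]; exact Multiset.mem_cons_of_mem ha)
    obtain ⟨h2, h3⟩ := ih h1
    have hB : 0 < B.sum := hr _ (by simp)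
    have hB1 : 1 ≤ card B := by
      rw [Nat.one_le_iff_ne_zero]
      intro h
      rw [Multiset.card_eq_zero] at h
      subst h
      simp at hB
    simp only [Multiset.map_cons, Multiset.card_cons, Multiset.sum_cons, Multiset.card_add]
    refine ⟨by omega, fun h => ?_⟩
    have h4 : card B = 1 := by omega
    have h5 := h3 (by omega)
    obtain ⟨b, rfl⟩ := Multiset.card_eq_one.1 h4
    rw [h5]
    simp

lemma Ref.antisymm {l r : Multiset ℕ} (h : Ref l r) (h' : Ref r l) (hl : ∀ a ∈ l, 0 < a)
    (hr : ∀ a ∈ r, 0 < a) : l = r :=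
  (h.card_le hr).2 (le_antisymm (h.card_le hr).1 (h'.card_le hl).1)

end Pool.Agent.K1H55.MB
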