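import Pool.Agent.K1H55.MB.Tr

set_option autoImplicit false

namespace Pool.Agent.K1H55.MB

open Multiset Finset

/-- the Moebius function for multisets of positive integers with the same sum, `0` otherwise -/
noncomputable def muM (l r : Multiset ℕ) : ℤ := by
  classical
  exact if h : (∀ a ∈ l, 0 < a) ∧ (∀ a ∈ r, 0 < a) ∧ l.sum = r.sum then
    mu (mk l h.1 h.2.2 : Lam r.sum) (mk r h.2.1 rfl) else 0

lemma mu_cast {n N : ℕ} (h : N = n) (l r : Lam n) (l' r' : Lam N) (h1 : l'.parts = l.parts)
    (h2 : r'.parts = r.parts) : mu l' r' = mu l r := by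
  subst h
  rw [Lam.ext h1, Lam.ext h2]

lemma muM_eq {n : ℕ} (l r : Lam n) : muM l.parts r.parts = mu l r := by
  unfold muM
  rw [dif_pos ⟨fun _ => l.pos, fun _ => r.pos, l.sum.trans r.sum.symm⟩]
  exact mu_cast r.sum l r _ _ rfl rfl

lemma muM_sum {n : ℕ} (l : Multiset ℕ) (hl : ∀ a ∈ l, 0 < a) (hln : l.sum = n) (r : Multiset ℕ)
    (hr : ∀ a ∈ r, 0 < a) (hrn : r.sum = n) :
    ∑ y ∈ (univ : Finset (Lam n)) with y ≤ mk r hr hrn, muM l y.parts =
      if l = r then 1 else 0 := by
  have h := sum_mu (mk l hl hln : Lam n) (mk r hr hrn)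
  have e : ((mk l hl hln : Lam n) = mk r hr hrn) ↔ l = r :=
    ⟨fun h => congrArg Lam.parts h, fun h => Lam.ext h⟩
  simp only [e] at h
  rw [← h]
  exact Finset.sum_congr rfl fun y _ => muM_eq (mk l hl hln) y

lemma uniq {n : ℕ} (l : Lam n) (f : Lam n → ℤ)
    (h : ∀ r, ∑ y ∈ (univ : Finset (Lam n)) with y ≤ r, f y = if l = r then 1 else 0) (r : Lam n) :
    f r = mu l r := by
  induction r using WellFoundedLT.induction with
  | ind r ih =>
    have h1 := h r
    rw [← sum_mu l r] at h1
    classical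
    have e : (univ : Finset (Lam n)).filter (fun y => y ≤ r) =
        insert r ((univ : Finset (Lam n)).filter (fun y => y < r)) := by
      ext y
      simp only [Finset.mem_filter, Finset.mem_univ, true_and, Finset.mem_insert]
      exact le_iff_eq_or_lt
    rw [e, Finset.sum_insert (by simp), Finset.sum_insert (by simp)] at h1
    rw [Finset.sum_congr rfl (fun y hy => ih y (by simpa using hy))] at h1
    linarith

/-- the number `u` as a multiset (empty for `u = 0`) -/
def pt (u : ℕ) : Multiset ℕ := if u = 0 then 0 else {u}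

lemma pt_sum (u : ℕ) : (pt u).sum = u := by
  unfold pt
  split_ifs with h
  · simp [h]
  · simp

lemma pt_pos (u : ℕ) : ∀ a ∈ pt u, 0 < a := by
  unfold pt
  split_ifs with h
  · simp
  · intro a ha
    rw [Multiset.mem_singleton] at ha
    omega

lemma ref_dom {K t s : ℕ} {y r : Multiset ℕ} (hy : ∀ a ∈ y, 0 < a) (hr : ∀ a ∈ r, a < K) :
    Ref ((K + t) ::ₘ y) ((K + s) ::ₘ r) ↔ t ≤ s ∧ Ref y (r + pt (s - t)) := by
  constructor
  · rintro ⟨P, h1, h2⟩
    obtain ⟨Q, hQ, haQ⟩ := Multiset.mem_join.1 (show K + t ∈ P.join by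
      change K + t ∈ P.sum; rw [h1]; simp)
    obtain ⟨P', rfl⟩ := Multiset.exists_cons_of_mem hQ
    obtain ⟨Q', rfl⟩ := Multiset.exists_cons_of_mem haQ
    have h3 : Q' + P'.sum = y := by
      rw [Multiset.sum_cons, Multiset.cons_add] at h1
      exact (Multiset.cons_inj_right _).1 h1
    have h4 : K + t + Q'.sum ∈ (K + s) ::ₘ r := by
      rw [← h2]; simp
    have h5 : K + t + Q'.sum = K + s := by
      rcases Multiset.mem_cons.1 h4 with h | h
      · exact h
      · have := hr _ h
        omega
    have h6 : P'.map Multiset.sum = r := by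
      rw [Multiset.map_cons, Multiset.sum_cons, h5] at h2
      exact (Multiset.cons_inj_right _).1 h2
    refine ⟨by omega, ?_⟩
    have h7 : Q'.sum = s - t := by omega
    rw [← h3, add_comm]
    apply Ref.add ⟨P', rfl, h6⟩
    unfold pt
    split_ifs with h8
    · have : Q' = 0 := by
        by_contra hc
        obtain ⟨c, hc'⟩ := Multiset.exists_mem_of_ne_zero hc
        have h9 := hy c (by rw [← h3]; exact Multiset.mem_add.2 (Or.inl hc'))
        have h10 := Multiset.single_le_sum (fun _ _ => Nat.zero_le _) _ hc'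
        omega
      rw [this]
      exact Ref.refl 0
    · rw [← h7]
      exact Ref.single Q'
  · rintro ⟨h1, h2⟩
    have h3 := (Ref.refl {K + t}).add h2
    refine Ref.trans (by simpa using h3) (?_ : Ref ({K + t} + (r + pt (s - t))) _)
    have h4 : Ref ({K + t} + pt (s - t)) {K + s} := by
      have h5 := Ref.single ({K + t} + pt (s - t))
      rw [Multiset.sum_add, pt_sum, Multiset.sum_singleton] at h5
      rwa [show K + t + (s - t) = K + s by omega] at h5
    have h6 := h4.add (Ref.refl r)
    rw [add_assoc, add_comm (pt (s - t)) r] at h6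
    simpa using h6

/-- the number of distinct arrangements of the elements of `E` -/
noncomputable def arr (E : Multiset ℕ) : ℤ :=
  ((Multiset.card E).factorial / ∏ a ∈ E.toFinset, (E.count a).factorial : ℕ)

lemma arr_spec (E : Multiset ℕ) :
    ((∏ a ∈ E.toFinset, (E.count a).factorial : ℕ) : ℤ) * arr E =
      ((Multiset.card E).factorial : ℕ) := by
  have h : (∏ a ∈ E.toFinset, (E.count a).factorial) ∣ (Multiset.card E).factorial := by
    conv_rhs => rw [← Multiset.toFinset_sum_count_eq E]
    exact Nat.prod_factorial_dvd_factorial_sum _ _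
  unfold arr
  rw [← Nat.cast_mul, Nat.mul_div_cancel' h]

lemma prod_erase (E : Multiset ℕ) {u : ℕ} (hu : u ∈ E) :
    ∏ a ∈ E.toFinset, (E.count a).factorial =
      E.count u * ∏ a ∈ (E.erase u).toFinset, ((E.erase u).count a).factorial := by
  have h1 : ∏ a ∈ (E.erase u).toFinset, ((E.erase u).count a).factorial =
      ∏ a ∈ E.toFinset, ((E.erase u).count a).factorial := by
    apply Finset.prod_subset
    · intro a ha
      rw [Multiset.mem_toFinset] at ha ⊢
      exact Multiset.mem_of_mem_erase ha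
    · intro a _ ha
      rw [Multiset.mem_toFinset] at ha
      rw [Multiset.count_eq_zero_of_notMem ha]
      rfl
  have hu' : u ∈ E.toFinset := Multiset.mem_toFinset.2 hu
  rw [h1, ← Finset.mul_prod_erase _ _ hu', ← Finset.mul_prod_erase _ _ hu', ← mul_assoc]
  congr 1
  · rw [Multiset.count_erase_self]
    exact (Nat.mul_factorial_pred (Multiset.count_pos.2 hu).ne').symm
  · apply Finset.prod_congr rfl
    intro a ha
    rw [Multiset.count_erase_of_ne (Finset.ne_of_mem_erase ha)]

lemma arr_rec (E : Multiset ℕ) (hE : E ≠ 0) :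
    ∑ u ∈ E.toFinset, arr (E.erase u) = arr E := by
  have hne : ((∏ a ∈ E.toFinset, (E.count a).factorial : ℕ) : ℤ) ≠ 0 := by
    rw [Nat.cast_ne_zero]
    exact Finset.prod_ne_zero_iff.2 fun a _ => Nat.factorial_ne_zero _
  apply mul_left_cancel₀ hne
  rw [arr_spec, Finset.mul_sum]
  have h1 : ∀ u ∈ E.toFinset, ((∏ a ∈ E.toFinset, (E.count a).factorial : ℕ) : ℤ) *
      arr (E.erase u) = (E.count u : ℤ) * ((Multiset.card E - 1).factorial : ℕ) := by
    intro u hu
    rw [Multiset.mem_toFinset] at hu
    rw [prod_erase E hu, Nat.cast_mul, mul_assoc, arr_spec, Multiset.card_erase_of_mem hu]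
    rfl
  rw [Finset.sum_congr rfl h1, ← Finset.sum_mul, ← Nat.cast_sum,
    Multiset.toFinset_sum_count_eq, ← Nat.cast_mul, Nat.mul_factorial_pred]
  rw [Ne, Multiset.card_eq_zero]
  exact hE

end Pool.Agent.K1H55.MB
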