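import Pool.Agent.K1H55.MB.Dom

set_option autoImplicit false

namespace Pool.Agent.K1H55.MB

open Multiset Finset

lemma mem_sub {l A : Multiset ℕ} : A ∈ l.powerset.toFinset ↔ A ≤ l := by simp

lemma sum_sub {l A : Multiset ℕ} (h : A ≤ l) : A.sum + (l - A).sum = l.sum := by
  rw [← Multiset.sum_add, add_tsub_cancel_of_le h]

/-- the coefficient -/
noncomputable def co (A : Multiset ℕ) : ℤ := (-1) ^ (Multiset.card A) * arr A

lemma arr_zero : arr 0 = 1 := by
  unfold arr
  simp

lemma co_sum (E : Multiset ℕ) :
    co E + ∑ u ∈ E.toFinset, co (E.erase u) = if E = 0 then 1 else 0 := by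
  split_ifs with h
  · subst h
    simp [co, arr_zero]
  · have h1 : ∀ u ∈ E.toFinset, co (E.erase u) = -((-1) ^ (Multiset.card E) * arr (E.erase u)) := by
      intro u hu
      rw [Multiset.mem_toFinset] at hu
      unfold co
      rw [Multiset.card_erase_of_mem hu]
      obtain ⟨c, hc⟩ : ∃ c, Multiset.card E = c + 1 :=
        ⟨Multiset.card E - 1, by have := Multiset.card_pos_iff_exists_mem.2 ⟨u, hu⟩; omega⟩
      rw [hc, Nat.pred_eq_sub_one, Nat.add_sub_cancel, pow_succ]
      ring
    rw [Finset.sum_congr rfl h1, Finset.sum_neg_distrib, ← Finset.mul_sum, arr_rec E h]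
    unfold co
    ring

/-- the right hand side -/
noncomputable def F (K : ℕ) (l z : Multiset ℕ) : ℤ :=
  ∑ A ∈ l.powerset.toFinset, co A *
    (if K + A.sum ∈ z then muM (l - A) (z.erase (K + A.sum)) else 0)

lemma inner {n K s t : ℕ} (hKpos : 0 < K) (hs : s ≤ n) (ht : t ≤ n) (r : Lam (K + n)) (r0 : Multiset ℕ)
    (hr : r.parts = (K + s) ::ₘ r0) (hr0 : ∀ a ∈ r0, a < K) (l' : Multiset ℕ)
    (hl' : ∀ a ∈ l', 0 < a) (hls : l'.sum = n - t) :
    ∑ z ∈ (univ : Finset (Lam (K + n))) with z ≤ r,
      (if K + t ∈ z.parts then muM l' (z.parts.erase (K + t)) else 0) =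
      if t ≤ s ∧ l' = r0 + pt (s - t) then 1 else 0 := by
  classical
  have hr0p : ∀ a ∈ r0, 0 < a := fun a ha => r.pos (by rw [hr]; exact Multiset.mem_cons_of_mem ha)
  have hr0s : r0.sum = n - s := by
    have := r.sum
    rw [hr, Multiset.sum_cons] at this
    omega
  rw [← Finset.sum_filter, Finset.filter_filter]
  by_cases hts : t ≤ s
  · have hp : ∀ a ∈ r0 + pt (s - t), 0 < a := by
      intro a ha
      rcases Multiset.mem_add.1 ha with h | h
      · exact hr0p a h
      · exact pt_pos _ a h
    have hsum : (r0 + pt (s - t)).sum = n - t := by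
      rw [Multiset.sum_add, pt_sum, hr0s]
      omega
    have h1 := muM_sum l' hl' hls (r0 + pt (s - t)) hp hsum
    have e : (t ≤ s ∧ l' = r0 + pt (s - t)) ↔ l' = r0 + pt (s - t) := by simp [hts]
    simp only [e]
    rw [← h1]
    symm
    have hup : ∀ y : Lam (n - t), (∀ a ∈ (K + t) ::ₘ y.parts, 0 < a) ↔ 0 < K + t := by
      intro y
      constructor
      · intro h
        exact h _ (Multiset.mem_cons_self _ _)
      · intro h a ha
        rcases Multiset.mem_cons.1 ha with rfl | ha
        · exact h
        · exact y.pos ha
    have hKs : 0 < K + s := r.pos (by rw [hr]; simp)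
    have hK0 : 0 < K + t := by omega
    refine Finset.sum_bij (fun (y : Lam (n - t)) _ => (mk ((K + t) ::ₘ y.parts)
      ((hup y).2 hK0) (by rw [Multiset.sum_cons, y.sum]; omega) : Lam (K + n))) ?_ ?_ ?_ ?_
    · intro y hy
      simp only [Finset.mem_filter, Finset.mem_univ, true_and, mk_parts, Multiset.mem_cons,
        true_or, and_true] at hy ⊢
      rw [le_def, mk_parts, hr, ref_dom (fun a => y.pos) hr0]
      exact ⟨hts, hy⟩
    · intro y _ y' _ h
      apply Lam.ext
      have := congrArg Lam.parts h
      simp only [mk_parts] at this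
      exact (Multiset.cons_inj_right _).1 this
    · intro z hz
      simp only [Finset.mem_filter, Finset.mem_univ, true_and] at hz
      obtain ⟨y, hy⟩ := Multiset.exists_cons_of_mem hz.2
      have hyp : ∀ a ∈ y, 0 < a := fun a ha => z.pos (by
        rw [hy]; exact Multiset.mem_cons_of_mem ha)
      have hys : y.sum = n - t := by
        have := z.sum
        rw [hy, Multiset.sum_cons] at this
        omega
      refine ⟨mk y hyp hys, ?_, Lam.ext (by rw [mk_parts, mk_parts, hy])⟩
      simp only [Finset.mem_filter, Finset.mem_univ, true_and]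
      have h2 := hz.1
      rw [le_def, hy, hr, ref_dom hyp hr0] at h2
      exact h2.2
    · intro y _
      rw [mk_parts, Multiset.erase_cons_head]
  · rw [if_neg (fun h => hts h.1), Finset.sum_eq_zero]
    intro z hz
    exfalso
    simp only [Finset.mem_filter, Finset.mem_univ, true_and] at hz
    obtain ⟨y, hy⟩ := Multiset.exists_cons_of_mem hz.2
    have hyp : ∀ a ∈ y, 0 < a := fun a ha => z.pos (by
      rw [hy]; exact Multiset.mem_cons_of_mem ha)
    have h2 := hz.1
    rw [le_def, hy, hr, ref_dom hyp hr0] at h2
    exact hts h2.1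

lemma cond {l r0 A : Multiset ℕ} {s : ℕ} (hl : ∀ a ∈ l, 0 < a) (hr : r0 ≤ l)
    (hs : (l - r0).sum = s) (hA : A ≤ l) :
    (A.sum ≤ s ∧ l - A = r0 + pt (s - A.sum)) ↔
      A ∈ insert (l - r0) ((l - r0).toFinset.image (fun u => (l - r0).erase u)) := by
  have hE : r0 + (l - r0) = l := add_tsub_cancel_of_le hr
  rw [Finset.mem_insert, Finset.mem_image]
  constructor
  · rintro ⟨h1, h2⟩
    have h3 : A + (r0 + pt (s - A.sum)) = l := by rw [← h2]; exact add_tsub_cancel_of_le hA
    have h4 : A + pt (s - A.sum) = l - r0 := by
      have : r0 + (A + pt (s - A.sum)) = r0 + (l - r0) := by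
        rw [hE, ← h3]
        abel
      exact add_left_cancel this
    unfold pt at h4
    split_ifs at h4 with h5
    · left
      simpa using h4
    · right
      refine ⟨s - A.sum, ?_, ?_⟩
      · rw [Multiset.mem_toFinset, ← h4]
        simp
      · rw [← h4, add_comm, Multiset.singleton_add, Multiset.erase_cons_head]
  · rintro (rfl | ⟨u, hu, rfl⟩)
    · rw [hs]
      refine ⟨le_rfl, ?_⟩
      rw [Nat.sub_self]
      have : l - (l - r0) = r0 := by
        have h := add_tsub_cancel_right r0 (l - r0)
        rwa [hE] at h
      rw [this]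
      simp [pt]
    · rw [Multiset.mem_toFinset] at hu
      have h1 : u ::ₘ (l - r0).erase u = l - r0 := Multiset.cons_erase hu
      have h2 : u + ((l - r0).erase u).sum = s := by
        rw [← hs, ← Multiset.sum_cons, h1]
      have hu0 : 0 < u := hl u (Multiset.mem_of_le tsub_le_self hu)
      refine ⟨by omega, ?_⟩
      have h3 : s - ((l - r0).erase u).sum = u := by omega
      rw [h3]
      unfold pt
      rw [if_neg hu0.ne']
      have h4 : (l - r0).erase u + (r0 + {u}) = l := by
        have h6 : r0 + (u ::ₘ (l - r0).erase u) = l := by rw [h1, hE]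
        rw [← Multiset.singleton_add] at h6
        conv_rhs => rw [← h6]
        abel
      have h5 := add_tsub_cancel_left ((l - r0).erase u) (r0 + {u})
      rw [h4] at h5
      exact h5

lemma erase_inj {E : Multiset ℕ} {u v : ℕ} (hu : u ∈ E) (h : E.erase u = E.erase v) :
    u = v := by
  by_contra hne
  have h1 := congrArg (Multiset.count u) h
  rw [Multiset.count_erase_self, Multiset.count_erase_of_ne hne] at h1
  have := Multiset.count_pos.2 hu
  omega

theorem dom {n K : ℕ} (hK : n < K) (l : Lam n) (lp : Lam (K + n)) (hlp : lp.parts = K ::ₘ l.parts)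
    (z : Lam (K + n)) : F K l.parts z.parts = mu lp z := by
  classical
  refine uniq lp (fun z => F K l.parts z.parts) ?_ z
  intro r
  have hlK : ∀ a ∈ l.parts, a < K := by
    intro a ha
    have := Multiset.single_le_sum (fun _ _ => Nat.zero_le _) _ ha
    rw [l.sum] at this
    omega
  by_cases h : ∃ a ∈ r.parts, K ≤ a
  · obtain ⟨a, ha, hKa⟩ := h
    obtain ⟨s, rfl⟩ := Nat.exists_eq_add_of_le hKa
    obtain ⟨r0, hr⟩ := Multiset.exists_cons_of_mem ha
    have hsum := r.sum
    rw [hr, Multiset.sum_cons] at hsum
    have hs : s ≤ n := by omega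
    have hr0 : ∀ a ∈ r0, a < K := by
      intro a ha
      have := Multiset.single_le_sum (fun _ _ => Nat.zero_le _) _ ha
      omega
    have e1 : ∑ y ∈ (univ : Finset (Lam (K + n))) with y ≤ r, F K l.parts y.parts =
        ∑ A ∈ l.parts.powerset.toFinset, co A *
          (if A.sum ≤ s ∧ l.parts - A = r0 + pt (s - A.sum) then 1 else 0) := by
      unfold F
      rw [Finset.sum_comm]
      refine Finset.sum_congr rfl fun A hA => ?_
      rw [mem_sub] at hA
      rw [← Finset.mul_sum]
      congr 1
      have h1 := sum_sub hA
      rw [l.sum] at h1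
      exact inner (by omega) hs (by omega) r r0 hr hr0 _
        (fun a ha => l.pos (Multiset.mem_of_le tsub_le_self ha)) (by omega)
    rw [e1]
    by_cases hle : r0 ≤ l.parts
    · have hE : (l.parts - r0).sum = s := by
        have := sum_sub hle
        rw [l.sum] at this
        omega
      set E := l.parts - r0 with hEdef
      have e2 : ∑ A ∈ l.parts.powerset.toFinset, co A *
          (if A.sum ≤ s ∧ l.parts - A = r0 + pt (s - A.sum) then 1 else 0) =
          ∑ A ∈ insert E (E.toFinset.image (fun u => E.erase u)), co A := by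
        symm
        have hsub : insert E (E.toFinset.image (fun u => E.erase u)) ⊆
            l.parts.powerset.toFinset := by
          intro A hA
          rw [mem_sub]
          rw [Finset.mem_insert, Finset.mem_image] at hA
          rcases hA with rfl | ⟨u, -, rfl⟩
          · exact tsub_le_self
          · exact (Multiset.erase_le _ _).trans tsub_le_self
        rw [← Finset.sum_subset hsub (f := fun A => co A *
          (if A.sum ≤ s ∧ l.parts - A = r0 + pt (s - A.sum) then 1 else 0))]
        · refine Finset.sum_congr rfl fun A hA => ?_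
          rw [if_pos ((cond (fun a => l.pos) hle hE (mem_sub.1 (hsub hA))).2 hA), mul_one]
        · intro A hA hA'
          rw [if_neg (fun hc => hA' ((cond (fun a => l.pos) hle hE (mem_sub.1 hA)).1 hc)),
            mul_zero]
      rw [e2, Finset.sum_insert, Finset.sum_image, co_sum]
      · have hiff : E = 0 ↔ lp = r := by
          constructor
          · intro h0
            have h1 : s = 0 := by rw [← hE, h0]; simp
            have h2 : l.parts = r0 := by
              have := add_tsub_cancel_of_le hle
              rw [← hEdef, h0, add_zero] at this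
              exact this.symm
            apply Lam.ext
            rw [hlp, hr, h1, h2, Nat.add_zero]
          · intro h0
            have h1 : K ::ₘ l.parts = (K + s) ::ₘ r0 := by rw [← hlp, ← hr, h0]
            have h2 : K + s ∈ K ::ₘ l.parts := by rw [h1]; simp
            have h3 : s = 0 := by
              rcases Multiset.mem_cons.1 h2 with h | h
              · omega
              · have := hlK _ h
                omega
            rw [h3, Nat.add_zero] at h1
            rw [hEdef, (Multiset.cons_inj_right _).1 h1]
            simp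
        simp only [hiff]
      · intro u hu v _ huv
        exact erase_inj (Multiset.mem_toFinset.1 hu) huv
      · intro hc
        rw [Finset.mem_image] at hc
        obtain ⟨u, hu, h1⟩ := hc
        have h2 := congrArg Multiset.card h1
        rw [Multiset.mem_toFinset] at hu
        rw [Multiset.card_erase_of_mem hu] at h2
        have := Multiset.card_pos_iff_exists_mem.2 ⟨u, hu⟩
        rw [Nat.pred_eq_sub_one] at h2
        omega
    · rw [Finset.sum_eq_zero, if_neg]
      · intro h0
        apply hle
        have h1 : K ::ₘ l.parts = (K + s) ::ₘ r0 := by rw [← hlp, ← hr, h0]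
        have h2 : K + s ∈ K ::ₘ l.parts := by rw [h1]; simp
        have h3 : s = 0 := by
          rcases Multiset.mem_cons.1 h2 with h | h
          · omega
          · have := hlK _ h
            omega
        rw [h3, Nat.add_zero] at h1
        exact ((Multiset.cons_inj_right _).1 h1).ge
      · intro A hA
        rw [if_neg, mul_zero]
        rintro ⟨-, h2⟩
        apply hle
        exact (Multiset.le_add_right r0 (pt (s - A.sum))).trans (h2.ge.trans tsub_le_self)
  · rw [if_neg, Finset.sum_eq_zero]
    · intro y hy
      unfold F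
      refine Finset.sum_eq_zero fun A _ => ?_
      rw [if_neg, mul_zero]
      intro hc
      simp only [Finset.mem_filter, Finset.mem_univ, true_and] at hy
      obtain ⟨b, hb, h1⟩ := Ref.part (le_def.1 hy) hc
      exact h ⟨b, hb, by omega⟩
    · rintro rfl
      exact h ⟨K, by rw [hlp]; simp, le_rfl⟩

end Pool.Agent.K1H55.MB
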