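import Pool.Agent.K1H55.MB.Ord

set_option autoImplicit false

namespace Pool.Agent.K1H55.MB

open Multiset Finset

lemma Ref.part {l r : Multiset ℕ} (h : Ref l r) {a : ℕ} (ha : a ∈ l) : ∃ b ∈ r, a ≤ b := by
  obtain ⟨P, rfl, rfl⟩ := h
  obtain ⟨Q, hQ, haQ⟩ := Multiset.mem_join.1 (show a ∈ P.join from ha)
  exact ⟨Q.sum, Multiset.mem_map_of_mem _ hQ, Multiset.single_le_sum (fun _ _ => Nat.zero_le _) _ haQ⟩

lemma Ref.two {l r : Multiset ℕ} {a c : ℕ} (h : Ref (a ::ₘ c ::ₘ l) r) :
    (∃ b ∈ r, a + c ≤ b) ∨ ∃ b b' r', r = b ::ₘ b' ::ₘ r' ∧ a ≤ b ∧ c ≤ b' := by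
  obtain ⟨P, h1, rfl⟩ := h
  have ha : a ∈ P.sum := by rw [h1]; simp
  obtain ⟨Q, hQ, haQ⟩ := Multiset.mem_join.1 (show a ∈ P.join from ha)
  obtain ⟨P', rfl⟩ := Multiset.exists_cons_of_mem hQ
  obtain ⟨Q', rfl⟩ := Multiset.exists_cons_of_mem haQ
  have h2 : Q' + P'.sum = c ::ₘ l := by
    rw [Multiset.sum_cons, Multiset.cons_add] at h1
    exact (Multiset.cons_inj_right _).1 h1
  have hc : c ∈ Q' + P'.sum := by rw [h2]; simp
  rcases Multiset.mem_add.1 hc with hc | hc
  · left
    refine ⟨_, Multiset.mem_map_of_mem _ (Multiset.mem_cons_self _ _), ?_⟩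
    have := Multiset.single_le_sum (fun _ _ => Nat.zero_le _) _ hc
    simp only [Multiset.sum_cons]
    omega
  · right
    obtain ⟨R, hR, hcR⟩ := Multiset.mem_join.1 (show c ∈ P'.join from hc)
    obtain ⟨P'', rfl⟩ := Multiset.exists_cons_of_mem hR
    refine ⟨(a ::ₘ Q').sum, R.sum, P''.map Multiset.sum, by simp, by simp, ?_⟩
    exact Multiset.single_le_sum (fun _ _ => Nat.zero_le _) _ hcR

lemma big_cons (a : ℕ) (s : Multiset ℕ) : big (a ::ₘ s) = big s + if 2 ≤ a then 1 else 0 := by
  unfold big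
  rw [Multiset.countP_cons]

lemma big_ones (m : ℕ) : big (replicate m 1) = 0 := by
  unfold big
  rw [Multiset.countP_eq_zero]
  intro a ha
  rw [Multiset.eq_of_mem_replicate ha]
  norm_num

lemma shape {n : ℕ} (y : Lam n) (h : big y.parts ≤ 1) {b : ℕ} (hb : b ∈ y.parts) (hb2 : 2 ≤ b) :
    y.parts = b ::ₘ replicate (n - b) 1 ∧ b ≤ n := by
  obtain ⟨s, hs⟩ := Multiset.exists_cons_of_mem hb
  have h1 : big s = 0 := by
    rw [hs, big_cons, if_pos hb2] at h
    omega
  have h2 : ∀ a ∈ s, a = 1 := by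
    intro a ha
    have h3 := Multiset.countP_eq_zero.1 h1 a ha
    have h4 := y.pos (a := a) (by rw [hs]; exact Multiset.mem_cons_of_mem ha)
    omega
  have h5 := Multiset.eq_replicate_card.2 h2
  have h6 := y.sum
  rw [hs, Multiset.sum_cons, h5] at h6
  simp only [Multiset.sum_replicate, smul_eq_mul, mul_one] at h6
  refine ⟨?_, by omega⟩
  rw [hs, h5]
  congr 2
  omega

section

variable {n k m : ℕ} {l : Lam n}

lemma hsum (hl : l.parts = k ::ₘ replicate m 1) : n = k + m := by
  have := l.sum
  rw [hl] at this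
  simp at this
  omega

lemma hbig (hk : 2 ≤ k) (hl : l.parts = k ::ₘ replicate m 1) : big l.parts = 1 := by
  rw [hl, big_cons, big_ones, if_pos hk]

lemma H_shape (hk : 2 ≤ k) (hl : l.parts = k ::ₘ replicate m 1) {y : Lam n} (h : H l y ≠ 0) :
    ∃ i, i ≤ m ∧ y.parts = (k + i) ::ₘ replicate (m - i) 1 := by
  have h1 := H_ne h
  have h2 : big y.parts ≤ 1 := by
    by_contra hc
    exact h (H_zero l y (by rw [hbig hk hl]; omega))
  obtain ⟨b, hb, hkb⟩ := Ref.part (le_def.1 h1) (a := k) (by rw [hl]; simp)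
  obtain ⟨h3, h4⟩ := shape y h2 hb (by omega)
  have h5 := hsum hl
  refine ⟨b - k, by omega, ?_⟩
  rw [h3]
  congr 1
  · omega
  · congr 1
    omega

lemma part_le (hk : 2 ≤ k) {z : Lam n} {j : ℕ}
    (hz : z.parts = (k + j) ::ₘ replicate (m - j) 1) {b : ℕ} (hb : b ∈ z.parts) : b ≤ k + j := by
  rw [hz, Multiset.mem_cons] at hb
  rcases hb with rfl | hb
  · exact le_rfl
  · rw [Multiset.eq_of_mem_replicate hb]
    omega

lemma idx_le (hk : 2 ≤ k) {y z : Lam n} {i j : ℕ}
    (hy : y.parts = (k + i) ::ₘ replicate (m - i) 1)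
    (hz : z.parts = (k + j) ::ₘ replicate (m - j) 1) (h : y ≤ z) : i ≤ j := by
  obtain ⟨b, hb, h1⟩ := Ref.part (le_def.1 h) (a := k + i) (by rw [hy]; simp)
  have := part_le hk hz hb
  omega

lemma count_one (hk : 2 ≤ k) {y : Lam n} {i : ℕ}
    (hy : y.parts = (k + i) ::ₘ replicate (m - i) 1) : y.parts.count 1 = m - i := by
  rw [hy, Multiset.count_cons_of_ne (by omega)]
  simp

lemma U_shape (hk : 2 ≤ k) {y : Lam n} {i : ℕ}
    (hy : y.parts = (k + i) ::ₘ replicate (m - i) 1) (hi : i + 2 ≤ m) :
    (U y).parts = 2 ::ₘ (k + i) ::ₘ replicate (m - i - 2) 1 := by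
  rw [U_parts (by rw [count_one hk hy]; omega), hy]
  obtain ⟨c, hc⟩ : ∃ c, m - i = c + 2 := ⟨m - i - 2, by omega⟩
  rw [hc]
  congr 1
  have e : replicate (c + 2) 1 = 1 ::ₘ 1 ::ₘ replicate c 1 := by
    simp [Multiset.replicate_succ]
  rw [e, Multiset.cons_swap, Multiset.erase_cons_head, Multiset.cons_swap,
    Multiset.erase_cons_head]
  simp

lemma in_F (hk : 2 ≤ k) {y z : Lam n} {i j : ℕ}
    (hy : y.parts = (k + i) ::ₘ replicate (m - i) 1)
    (hz : z.parts = (k + j) ::ₘ replicate (m - j) 1) (hij : j ≤ i + 1) :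
    ¬ (2 ≤ y.parts.count 1 ∧ U y ≤ z) := by
  rintro ⟨h1, h2⟩
  rw [count_one hk hy] at h1
  rw [le_def, U_shape hk hy (by omega)] at h2
  rcases h2.two with ⟨b, hb, h3⟩ | ⟨b, b', r', h3, h4, h5⟩
  · have := part_le hk hz hb
    omega
  · have h6 : big z.parts = 1 := by
      rw [hz, big_cons, big_ones, if_pos (by omega)]
    rw [h3, big_cons, big_cons, if_pos (by omega), if_pos (by omega)] at h6
    omega

lemma ref_ones_cons (a c e : ℕ) :
    Ref (a ::ₘ replicate (c + e) 1) ((a + c) ::ₘ replicate e 1) := by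
  have h := (Ref.single (a ::ₘ replicate c 1)).add (Ref.refl (replicate e 1))
  simpa [Multiset.replicate_add] using h

lemma H_val (hk : 2 ≤ k) (hl : l.parts = k ::ₘ replicate m 1) (j : ℕ) (hj : j ≤ m) (z : Lam n)
    (hz : z.parts = (k + j) ::ₘ replicate (m - j) 1) : H l z = (-1) ^ j := by
  induction j generalizing z with
  | zero =>
    have hlz : l = z := Lam.ext (by rw [hl, hz]; simp)
    have h1 := sum_H l z
    rw [if_pos hlz, Finset.sum_eq_single_of_mem z] at h1
    · simpa using h1
    · simp only [Finset.mem_filter, Finset.mem_univ, true_and, le_refl]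
      exact in_F hk hz hz (by omega)
    · intro y hy hyz
      by_contra hc
      simp only [Finset.mem_filter, Finset.mem_univ, true_and] at hy
      obtain ⟨i, hi, h2⟩ := H_shape hk hl hc
      have h3 := idx_le hk h2 hz hy.1
      apply hyz
      apply Lam.ext
      rw [h2, hz, Nat.le_zero.1 h3]
  | succ i ih =>
    have hn := hsum hl
    let z' : Lam n := mk ((k + i) ::ₘ replicate (m - i) 1) (by
      intro a ha
      rw [Multiset.mem_cons] at ha
      rcases ha with rfl | ha
      · omega
      · rw [Multiset.eq_of_mem_replicate ha]; norm_num) (by simp; omega)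
    have hz' : z'.parts = (k + i) ::ₘ replicate (m - i) 1 := rfl
    have hne : z ≠ z' := by
      intro h
      have h1 := count_one hk hz
      rw [h, count_one hk hz'] at h1
      omega
    have h1 := sum_H l z
    have hlz : l ≠ z := by
      intro h
      have h2 := count_one (i := 0) hk (by rw [hl]; simp : l.parts = (k + 0) ::ₘ replicate (m - 0) 1)
      rw [h, count_one hk hz] at h2
      omega
    rw [if_neg hlz, Finset.sum_eq_add z z' hne] at h1
    · rw [ih (by omega) z' hz'] at h1
      rw [pow_succ]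
      linarith
    · intro y hy hyz
      by_contra hc
      simp only [Finset.mem_filter, Finset.mem_univ, true_and] at hy
      obtain ⟨i', hi', h2⟩ := H_shape hk hl hc
      have h3 := idx_le hk h2 hz hy.1
      by_cases h4 : i' + 2 ≤ i + 1
      · apply hy.2
        refine ⟨by rw [count_one hk h2]; omega, ?_⟩
        rw [le_def, U_shape hk h2 (by omega), hz]
        have h5 := (Ref.single (2 ::ₘ {k + i'})).add (Ref.refl (replicate (m - i' - 2) 1))
        have h6 := ref_ones_cons (2 + (k + i')) (i + 1 - (i' + 2)) (m - (i + 1))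
        have e1 : i + 1 - (i' + 2) + (m - (i + 1)) = m - i' - 2 := by omega
        have e2 : 2 + (k + i') + (i + 1 - (i' + 2)) = k + (i + 1) := by omega
        rw [e1, e2] at h6
        refine Ref.trans ?_ h6
        simpa using h5
      · rcases Nat.lt_or_ge i' (i + 1) with h5 | h5
        · apply hyz.2
          apply Lam.ext
          rw [h2, hz']
          have : i' = i := by omega
          rw [this]
        · apply hyz.1
          apply Lam.ext
          rw [h2, hz]
          have : i' = i + 1 := by omega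
          rw [this]
    · intro h
      exfalso
      apply h
      simp only [Finset.mem_filter, Finset.mem_univ, true_and, le_refl]
      exact in_F hk hz hz (by omega)
    · intro h
      exfalso
      apply h
      simp only [Finset.mem_filter, Finset.mem_univ, true_and]
      refine ⟨?_, in_F hk hz' hz (by omega)⟩
      rw [le_def, hz', hz]
      have h6 := ref_ones_cons (k + i) 1 (m - (i + 1))
      have e1 : 1 + (m - (i + 1)) = m - i := by omega
      rw [e1] at h6
      exact h6

/-- **Moebius function of hooks.** -/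
theorem hook (hk : 2 ≤ k) (hl : l.parts = k ::ₘ replicate m 1) (z : Lam n) :
    (∀ j, j ≤ m → z.parts = (k + j) ::ₘ replicate (m - j) 1 → mu l z = (-1) ^ j) ∧
    (∀ j, j + 2 ≤ m → z.parts = (k + j) ::ₘ 2 ::ₘ replicate (m - 2 - j) 1 →
      mu l z = -(-1) ^ j) ∧
    ((∀ j, j ≤ m → z.parts ≠ (k + j) ::ₘ replicate (m - j) 1) →
      (∀ j, j + 2 ≤ m → z.parts ≠ (k + j) ::ₘ 2 ::ₘ replicate (m - 2 - j) 1) → mu l z = 0) := by
  refine ⟨?_, ?_, ?_⟩
  · intro j hj hz
    rw [H_rec, H_val hk hl j hj z hz]
    split_ifs with h2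
    · have h3 : 2 = k + j := by
        rw [hz, Multiset.mem_cons] at h2
        rcases h2 with h2 | h2
        · exact h2
        · have := Multiset.eq_of_mem_replicate h2
          omega
      have h4 : H l (D z) = 0 := by
        by_contra hc
        obtain ⟨b, hb, h5⟩ := Ref.part (le_def.1 (H_ne hc)) (a := k) (by rw [hl]; simp)
        rw [D_parts h2, hz, ← h3, Multiset.erase_cons_head] at hb
        simp only [Multiset.mem_cons] at hb
        rcases hb with rfl | rfl | hb
        · omega
        · omega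
        · have := Multiset.eq_of_mem_replicate hb
          omega
      rw [h4, sub_zero]
    · rw [sub_zero]
  · intro j hj hz
    have h1 : H l z = 0 := H_zero l z (by
      rw [hbig hk hl, hz, big_cons, big_cons, big_ones, if_pos (by omega), if_pos (by omega)]
      norm_num)
    have h2 : 2 ∈ z.parts := by rw [hz]; simp
    have h3 : (D z).parts = (k + j) ::ₘ replicate (m - j) 1 := by
      rw [D_parts h2, hz, Multiset.cons_swap (k + j) 2, Multiset.erase_cons_head]
      obtain ⟨c, hc⟩ : ∃ c, m - j = c + 2 := ⟨m - j - 2, by omega⟩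
      have hc' : m - 2 - j = c := by omega
      rw [hc, hc', Multiset.replicate_succ, Multiset.replicate_succ,
        Multiset.cons_swap (k + j), Multiset.cons_swap (k + j)]
    rw [H_rec, h1, if_pos h2, H_val hk hl j (by omega) _ h3, zero_sub]
  · intro h1 h2
    rw [H_rec]
    have h3 : H l z = 0 := by
      by_contra hc
      obtain ⟨i, hi, h4⟩ := H_shape hk hl hc
      exact h1 i hi h4
    rw [h3]
    split_ifs with h4
    · rw [zero_sub, neg_eq_zero]
      by_contra hc
      obtain ⟨i, hi, h5⟩ := H_shape hk hl hc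
      have h6 : 2 ≤ m - i := by
        rw [← count_one hk h5]
        exact (UD z h4).1
      apply h2 i (by omega)
      have h7 := U_shape hk h5 (by omega)
      rw [(UD z h4).2] at h7
      rw [h7, Multiset.cons_swap]
      congr 3
      omega
    · simp

end

end Pool.Agent.K1H55.MB
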