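import Pool.Agent.K1H55.MB.Basic

set_option autoImplicit false

namespace Pool.Agent.K1H55.MB

open Multiset Finset

/-- the partitions of `n` -/
def Lam (n : ℕ) : Type := Nat.Partition n

/-- the parts of a partition -/
def Lam.parts {n : ℕ} (l : Lam n) : Multiset ℕ := Nat.Partition.parts l

instance (n : ℕ) : Fintype (Lam n) := inferInstanceAs (Fintype (Nat.Partition n))
instance (n : ℕ) : DecidableEq (Lam n) := inferInstanceAs (DecidableEq (Nat.Partition n))

lemma Lam.pos {n : ℕ} (l : Lam n) {a : ℕ} (ha : a ∈ l.parts) : 0 < a :=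
  Nat.Partition.parts_pos l ha

lemma Lam.sum {n : ℕ} (l : Lam n) : l.parts.sum = n := Nat.Partition.parts_sum l

lemma Lam.ext {n : ℕ} {l r : Lam n} (h : l.parts = r.parts) : l = r := Nat.Partition.ext h

/-- a partition from its parts -/
def mk {n : ℕ} (s : Multiset ℕ) (hs : ∀ a ∈ s, 0 < a) (h : s.sum = n) : Lam n :=
  ⟨s, fun {a} ha => hs a ha, h⟩

@[simp] lemma mk_parts {n : ℕ} (s : Multiset ℕ) (hs : ∀ a ∈ s, 0 < a) (h : s.sum = n) :
    (mk s hs h : Lam n).parts = s := rfl

/-- the refinement order -/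
instance (n : ℕ) : PartialOrder (Lam n) where
  le l r := Ref l.parts r.parts
  le_refl l := Ref.refl _
  le_trans _ _ _ h h' := h.trans h'
  le_antisymm l r h h' := Lam.ext (h.antisymm h' (fun _ => l.pos) (fun _ => r.pos))

lemma le_def {n : ℕ} {l r : Lam n} : l ≤ r ↔ Ref l.parts r.parts := Iff.rfl

noncomputable instance (n : ℕ) : DecidableLE (Lam n) := Classical.decRel _

noncomputable instance (n : ℕ) : LocallyFiniteOrder (Lam n) :=
  LocallyFiniteOrder.ofFiniteIcc (fun _ _ => Set.toFinite _)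

/-- the Moebius function -/
noncomputable abbrev mu {n : ℕ} (l r : Lam n) : ℤ := IncidenceAlgebra.mu ℤ l r

lemma mu_ne {n : ℕ} {l r : Lam n} (h : mu l r ≠ 0) : l ≤ r := by
  by_contra hc
  exact h (IncidenceAlgebra.apply_eq_zero_of_not_le hc _)

lemma sum_mu {n : ℕ} (l r : Lam n) :
    ∑ y ∈ (univ : Finset (Lam n)) with y ≤ r, mu l y = if l = r then 1 else 0 := by
  rw [← IncidenceAlgebra.sum_Icc_mu_right (𝕜 := ℤ) l r]
  symm
  apply Finset.sum_subset
  · intro x hx
    rw [Finset.mem_Icc] at hx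
    simp [hx.2]
  · intro x hx hx'
    by_contra hc
    apply hx'
    rw [Finset.mem_Icc]
    exact ⟨mu_ne hc, by simpa using hx⟩

/-- the number of parts `≥ 2` -/
def big (s : Multiset ℕ) : ℕ := s.countP (2 ≤ ·)

/-- split a part `2` into `1 + 1` (the partition does not change if it has no part `2`) -/
def D {n : ℕ} (z : Lam n) : Lam n :=
  if h : 2 ∈ z.parts then
    mk (1 ::ₘ 1 ::ₘ z.parts.erase 2) (by
      intro a ha
      simp only [Multiset.mem_cons] at ha
      rcases ha with rfl | rfl | ha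
      · norm_num
      · norm_num
      · exact z.pos (Multiset.mem_of_mem_erase ha)) (by
      have h1 := z.sum
      rw [← Multiset.cons_erase h, Multiset.sum_cons] at h1
      simp only [Multiset.sum_cons]
      omega)
  else z

/-- merge two parts `1` -/
def U {n : ℕ} (z : Lam n) : Lam n :=
  if h : 2 ≤ z.parts.count 1 then
    mk (2 ::ₘ (z.parts.erase 1).erase 1) (by
      intro a ha
      simp only [Multiset.mem_cons] at ha
      rcases ha with rfl | ha
      · norm_num
      · exact z.pos (Multiset.mem_of_mem_erase (Multiset.mem_of_mem_erase ha))) (by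
      have h1 := z.sum
      have h2 : 1 ∈ z.parts := Multiset.count_pos.1 (by omega)
      have h3 : 1 ∈ z.parts.erase 1 := Multiset.count_pos.1 (by
        rw [Multiset.count_erase_self]; omega)
      rw [← Multiset.cons_erase h2, Multiset.sum_cons, ← Multiset.cons_erase h3,
        Multiset.sum_cons] at h1
      simp only [Multiset.sum_cons]
      omega)
  else z

lemma D_parts {n : ℕ} {z : Lam n} (h : 2 ∈ z.parts) :
    (D z).parts = 1 ::ₘ 1 ::ₘ z.parts.erase 2 := by
  unfold D; rw [dif_pos h]; rfl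

lemma U_parts {n : ℕ} {z : Lam n} (h : 2 ≤ z.parts.count 1) :
    (U z).parts = 2 ::ₘ (z.parts.erase 1).erase 1 := by
  unfold U; rw [dif_pos h]; rfl

lemma ones_split {s : Multiset ℕ} (h : 2 ≤ s.count 1) :
    s = 1 ::ₘ 1 ::ₘ (s.erase 1).erase 1 := by
  have h2 : 1 ∈ s := Multiset.count_pos.1 (by omega)
  have h3 : 1 ∈ s.erase 1 := Multiset.count_pos.1 (by
    rw [Multiset.count_erase_self]; omega)
  rw [Multiset.cons_erase h3, Multiset.cons_erase h2]

lemma le_U {n : ℕ} (z : Lam n) (h : 2 ≤ z.parts.count 1) : z ≤ U z := by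
  rw [le_def, U_parts h]
  conv_lhs => rw [ones_split h]
  have h1 := (Ref.single {1, 1}).add (Ref.refl ((z.parts.erase 1).erase 1))
  simpa using h1

lemma U_ne {n : ℕ} (z : Lam n) (h : 2 ≤ z.parts.count 1) : U z ≠ z := by
  intro hc
  have h1 := congrArg (fun w : Lam n => Multiset.card w.parts) hc
  simp only [U_parts h] at h1
  have h2 := congrArg Multiset.card (ones_split h)
  simp only [Multiset.card_cons] at h1 h2
  omega

lemma UD {n : ℕ} (z : Lam n) (h : 2 ∈ z.parts) : 2 ≤ (D z).parts.count 1 ∧ U (D z) = z := by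
  have h1 : 2 ≤ (D z).parts.count 1 := by
    rw [D_parts h]; simp
  refine ⟨h1, Lam.ext ?_⟩
  rw [U_parts h1, D_parts h]
  simp [Multiset.cons_erase h]

lemma DU {n : ℕ} (z : Lam n) (h : 2 ≤ z.parts.count 1) : 2 ∈ (U z).parts ∧ D (U z) = z := by
  have h1 : 2 ∈ (U z).parts := by
    rw [U_parts h]; simp
  refine ⟨h1, Lam.ext ?_⟩
  rw [D_parts h1, U_parts h]
  simp only [Multiset.erase_cons_head]
  exact (ones_split h).symm

lemma D_le {n : ℕ} (z : Lam n) : D z ≤ z := by
  by_cases h : 2 ∈ z.parts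
  · have h1 := UD z h
    calc D z ≤ U (D z) := le_U _ h1.1
      _ = z := h1.2
  · unfold D; rw [dif_neg h]

lemma count_D {n : ℕ} (z : Lam n) (h : 2 ∈ z.parts) :
    (D z).parts.count 2 + 1 = z.parts.count 2 := by
  rw [D_parts h]
  have := Multiset.count_pos.2 h
  simp only [Multiset.count_cons, Multiset.count_erase_self]
  norm_num
  omega

/-- the sums of the Moebius function over the partitions obtained by splitting parts `2` -/
noncomputable def H {n : ℕ} (l z : Lam n) : ℤ :=
  ∑ i ∈ Finset.range (z.parts.count 2 + 1), mu l (D^[i] z)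

lemma H_rec {n : ℕ} (l z : Lam n) : mu l z = H l z - if 2 ∈ z.parts then H l (D z) else 0 := by
  by_cases h : 2 ∈ z.parts
  · rw [if_pos h]
    unfold H
    rw [count_D z h, Finset.sum_range_succ']
    simp only [Function.iterate_succ_apply, Function.iterate_zero, id]
    ring
  · rw [if_neg h]
    unfold H
    rw [Multiset.count_eq_zero_of_notMem h]
    simp

lemma iter_le {n : ℕ} (i : ℕ) (z : Lam n) : D^[i] z ≤ z := by
  induction i generalizing z with
  | zero => simp
  | succ i ih =>
    rw [Function.iterate_succ_apply]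
    exact (ih _).trans (D_le z)

lemma H_ne {n : ℕ} {l z : Lam n} (h : H l z ≠ 0) : l ≤ z := by
  obtain ⟨i, -, hi⟩ := Finset.exists_ne_zero_of_sum_ne_zero h
  exact (mu_ne hi).trans (iter_le i z)

/-- the identity for `H` -/
lemma sum_H {n : ℕ} (l r : Lam n) :
    ∑ y ∈ (univ : Finset (Lam n)) with y ≤ r ∧ ¬ (2 ≤ y.parts.count 1 ∧ U y ≤ r), H l y =
      if l = r then 1 else 0 := by
  classical
  rw [← sum_mu l r]
  have e1 : ∑ y ∈ (univ : Finset (Lam n)) with y ≤ r, mu l y =
      ∑ y ∈ (univ : Finset (Lam n)) with y ≤ r, H l y -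
        ∑ y ∈ (univ : Finset (Lam n)) with y ≤ r, (if 2 ∈ y.parts then H l (D y) else 0) := by
    rw [← Finset.sum_sub_distrib]
    exact Finset.sum_congr rfl fun y _ => H_rec l y
  have e2 : ∑ y ∈ (univ : Finset (Lam n)) with y ≤ r, (if 2 ∈ y.parts then H l (D y) else 0) =
      ∑ y ∈ (univ : Finset (Lam n)) with (2 ≤ y.parts.count 1 ∧ U y ≤ r), H l y := by
    rw [← Finset.sum_filter, Finset.filter_filter]
    refine Finset.sum_bij' (fun y _ => D y) (fun y _ => U y) ?_ ?_ ?_ ?_ ?_
    · intro y hy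
      simp only [Finset.mem_filter, Finset.mem_univ, true_and] at hy ⊢
      exact ⟨(UD y hy.2).1, by rw [(UD y hy.2).2]; exact hy.1⟩
    · intro y hy
      simp only [Finset.mem_filter, Finset.mem_univ, true_and] at hy ⊢
      exact ⟨hy.2, (DU y hy.1).1⟩
    · intro y hy
      simp only [Finset.mem_filter, Finset.mem_univ, true_and] at hy
      exact (UD y hy.2).2
    · intro y hy
      simp only [Finset.mem_filter, Finset.mem_univ, true_and] at hy
      exact (DU y hy.1).2
    · intro y hy
      rfl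
  rw [e1, e2]
  have e3 : (univ : Finset (Lam n)).filter (fun y => y ≤ r) =
      (univ : Finset (Lam n)).filter (fun y => y ≤ r ∧ ¬ (2 ≤ y.parts.count 1 ∧ U y ≤ r)) ∪
        (univ : Finset (Lam n)).filter (fun y => 2 ≤ y.parts.count 1 ∧ U y ≤ r) := by
    ext y
    simp only [Finset.mem_filter, Finset.mem_univ, true_and, Finset.mem_union]
    constructor
    · intro h
      by_cases h2 : 2 ≤ y.parts.count 1 ∧ U y ≤ r
      · exact Or.inr h2
      · exact Or.inl ⟨h, h2⟩
    · rintro (h | h)
      · exact h.1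
      · exact (le_U y h.1).trans h.2
  rw [e3, Finset.sum_union]
  · ring
  · rw [Finset.disjoint_left]
    intro y hy hy'
    simp only [Finset.mem_filter, Finset.mem_univ, true_and] at hy hy'
    exact hy.2 hy'

/-- blocks of ones -/
lemma block {P : Multiset (Multiset ℕ)} (h : big P.sum < big (P.map Multiset.sum)) :
    ∃ Q ∈ P, 2 ≤ Q.sum ∧ ∀ a ∈ Q, a < 2 := by
  by_contra hc
  push Not at hc
  apply absurd h
  rw [not_lt]
  clear h
  induction P using Multiset.induction with
  | empty => simp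
  | cons Q P ih =>
    have ih' := ih fun R hR => hc R (Multiset.mem_cons_of_mem hR)
    unfold big at ih' ⊢
    rw [Multiset.map_cons, Multiset.sum_cons, Multiset.countP_add, Multiset.countP_cons]
    by_cases hQ : 2 ≤ Q.sum
    · obtain ⟨a, ha, h2⟩ := hc Q (Multiset.mem_cons_self _ _) hQ
      have h3 : 0 < Q.countP (2 ≤ ·) := Multiset.countP_pos.2 ⟨a, ha, h2⟩
      rw [if_pos hQ]
      omega
    · rw [if_neg hQ]
      omega

lemma few {n : ℕ} {y r : Lam n} (h : y ≤ r) (hb : big y.parts < big r.parts) :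
    2 ≤ y.parts.count 1 ∧ U y ≤ r := by
  obtain ⟨P, h1, h2⟩ := h
  rw [← h1, ← h2] at hb
  obtain ⟨Q, hQ, hQ2, hQ1⟩ := block hb
  obtain ⟨P', rfl⟩ := Multiset.exists_cons_of_mem hQ
  rw [Multiset.sum_cons] at h1
  have hQ3 : ∀ a ∈ Q, a = 1 := by
    intro a ha
    have := hQ1 a ha
    have := y.pos (a := a) (by rw [← h1]; exact Multiset.mem_add.2 (Or.inl ha))
    omega
  have hQ4 := Multiset.eq_replicate_card.2 hQ3
  have hQ5 : 2 ≤ Multiset.card Q := by
    rw [hQ4] at hQ2
    simpa using hQ2
  obtain ⟨c, hc⟩ : ∃ c, Multiset.card Q = c + 2 := ⟨Multiset.card Q - 2, by omega⟩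
  rw [hc] at hQ4
  have hQ6 : Q = 1 ::ₘ 1 ::ₘ Multiset.replicate c 1 := by
    rw [hQ4]; simp [Multiset.replicate_succ]
  have hcount : 2 ≤ y.parts.count 1 := by
    rw [← h1, hQ6]
    simp
  refine ⟨hcount, ?_⟩
  rw [le_def, U_parts hcount, ← h1]
  refine ⟨(2 ::ₘ Multiset.replicate c 1) ::ₘ P', ?_, ?_⟩
  · rw [hQ6]
    simp
  · rw [← h2, hQ6]
    simp only [Multiset.map_cons, Multiset.sum_cons]
    congr 1
    omega

/-- **vanishing of `H`** -/
theorem H_zero {n : ℕ} (l r : Lam n) (h : big l.parts < big r.parts) : H l r = 0 := by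
  induction r using WellFoundedLT.induction with
  | ind r ih =>
    have h1 := sum_H l r
    have hne : l ≠ r := by rintro rfl; exact lt_irrefl _ h
    rw [if_neg hne, Finset.sum_eq_single_of_mem r] at h1
    · exact h1
    · simp only [Finset.mem_filter, Finset.mem_univ, true_and, le_refl, true_and]
      rintro ⟨h2, h3⟩
      exact U_ne r h2 (le_antisymm h3 (le_U r h2))
    · intro y hy hyr
      simp only [Finset.mem_filter, Finset.mem_univ, true_and] at hy
      by_cases hb : big l.parts < big y.parts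
      · exact ih y (lt_of_le_of_ne hy.1 hyr) hb
      · exact absurd (few hy.1 (by omega)) hy.2

end Pool.Agent.K1H55.MB
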