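import Pool.Agent.K1H55.MB.Dom2

set_option autoImplicit false

namespace Pool.Agent.K1H55.MB

open Multiset Finset

lemma sub_ref {l y Q : Multiset ℕ} (h : Ref l y) (hQ : Q ≤ y) :
    ∃ B, B ≤ l ∧ B.sum = Q.sum := by
  obtain ⟨P, rfl, h2⟩ := h
  obtain ⟨R, rfl⟩ := Multiset.le_iff_exists_add.1 hQ
  obtain ⟨P1, P2, rfl, h3, -⟩ := map_split Multiset.sum P Q R h2
  refine ⟨P1.sum, by rw [Multiset.sum_add]; exact Multiset.le_add_right _ _, ?_⟩
  rw [← h3]
  clear h2 h3
  induction P1 using Multiset.induction with
  | empty => simp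
  | cons B P ih => simp [ih]

lemma muM_ne {l r : Multiset ℕ} (h : muM l r ≠ 0) : Ref l r := by
  unfold muM at h
  split_ifs at h with h1
  · exact le_def.1 (mu_ne h)
  · exact absurd rfl h

lemma ref_sep {K t s : ℕ} {l' y r : Multiset ℕ} (hy : ∀ a ∈ y, 0 < a) (hl : Ref l' y)
    (hr : ∀ B, B ≤ l' → K + t + B.sum ∉ r) (h : Ref ((K + t) ::ₘ y) ((K + s) ::ₘ r)) :
    t ≤ s ∧ Ref y (r + pt (s - t)) := by
  obtain ⟨P, h1, h2⟩ := h
  obtain ⟨Q, hQ, haQ⟩ := Multiset.mem_join.1 (show K + t ∈ P.join by
    change K + t ∈ P.sum; rw [h1]; simp)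
  obtain ⟨P', rfl⟩ := Multiset.exists_cons_of_mem hQ
  obtain ⟨Q', rfl⟩ := Multiset.exists_cons_of_mem haQ
  have h3 : Q' + P'.sum = y := by
    rw [Multiset.sum_cons, Multiset.cons_add] at h1
    exact (Multiset.cons_inj_right _).1 h1
  have h4 : K + t + Q'.sum ∈ (K + s) ::ₘ r := by
    rw [← h2]; simp
  have h5 : K + t + Q'.sum = K + s := by
    rcases Multiset.mem_cons.1 h4 with h | h
    · exact h
    · obtain ⟨B, hB, hBs⟩ := sub_ref hl (Q := Q') (by rw [← h3]; exact Multiset.le_add_right _ _)
      rw [← hBs] at h
      exact absurd h (hr B hB)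
  have h6 : P'.map Multiset.sum = r := by
    rw [Multiset.map_cons, Multiset.sum_cons, h5] at h2
    exact (Multiset.cons_inj_right _).1 h2
  refine ⟨by omega, ?_⟩
  have h7 : Q'.sum = s - t := by omega
  rw [← h3, add_comm]
  apply Ref.add ⟨P', rfl, h6⟩
  unfold pt
  split_ifs with h8
  · have : Q' = 0 := by
      by_contra hc
      obtain ⟨c, hc'⟩ := Multiset.exists_mem_of_ne_zero hc
      have h9 := hy c (by rw [← h3]; exact Multiset.mem_add.2 (Or.inl hc'))
      have h10 := Multiset.single_le_sum (fun _ _ => Nat.zero_le _) _ hc'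
      omega
    rw [this]
    exact Ref.refl 0
  · rw [← h7]
    exact Ref.single Q'

lemma ref_sep' {K t s : ℕ} {y r : Multiset ℕ} (h1 : t ≤ s) (h2 : Ref y (r + pt (s - t))) :
    Ref ((K + t) ::ₘ y) ((K + s) ::ₘ r) := by
  have h3 := (Ref.refl {K + t}).add h2
  refine Ref.trans (by simpa using h3) (?_ : Ref ({K + t} + (r + pt (s - t))) _)
  have h4 : Ref ({K + t} + pt (s - t)) {K + s} := by
    have h5 := Ref.single ({K + t} + pt (s - t))
    rw [Multiset.sum_add, pt_sum, Multiset.sum_singleton] at h5
    rwa [show K + t + (s - t) = K + s by omega] at h5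
  have h6 := h4.add (Ref.refl r)
  rw [add_assoc, add_comm (pt (s - t)) r] at h6
  simpa using h6

lemma innerS {n K s t : ℕ} (hKpos : 0 < K) (hs : s ≤ n) (ht : t ≤ n) (r : Lam (K + n))
    (r0 : Multiset ℕ) (hr : r.parts = (K + s) ::ₘ r0) (l' : Multiset ℕ)
    (hl' : ∀ a ∈ l', 0 < a) (hls : l'.sum = n - t) (hsep : ∀ B, B ≤ l' → K + t + B.sum ∉ r0) :
    ∑ z ∈ (univ : Finset (Lam (K + n))) with z ≤ r,
      (if K + t ∈ z.parts then muM l' (z.parts.erase (K + t)) else 0) =
      if t ≤ s ∧ l' = r0 + pt (s - t) then 1 else 0 := by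
  classical
  have hr0p : ∀ a ∈ r0, 0 < a := fun a ha => r.pos (by rw [hr]; exact Multiset.mem_cons_of_mem ha)
  have hr0s : r0.sum = n - s := by
    have := r.sum
    rw [hr, Multiset.sum_cons] at this
    omega
  have hup : ∀ y : Lam (n - t), (∀ a ∈ (K + t) ::ₘ y.parts, 0 < a) := by
    intro y a ha
    rcases Multiset.mem_cons.1 ha with rfl | ha
    · omega
    · exact y.pos ha
  have e0 : ∑ z ∈ (univ : Finset (Lam (K + n))) with z ≤ r,
      (if K + t ∈ z.parts then muM l' (z.parts.erase (K + t)) else 0) =
      ∑ y ∈ (univ : Finset (Lam (n - t))) with Ref ((K + t) ::ₘ y.parts) ((K + s) ::ₘ r0),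
        muM l' y.parts := by
    rw [← Finset.sum_filter, Finset.filter_filter]
    symm
    refine Finset.sum_bij (fun (y : Lam (n - t)) _ => (mk ((K + t) ::ₘ y.parts)
      (hup y) (by rw [Multiset.sum_cons, y.sum]; omega) : Lam (K + n))) ?_ ?_ ?_ ?_
    · intro y hy
      simp only [Finset.mem_filter, Finset.mem_univ, true_and, mk_parts, Multiset.mem_cons,
        true_or, and_true] at hy ⊢
      rw [le_def, mk_parts, hr]
      exact hy
    · intro y _ y' _ h
      apply Lam.ext
      have := congrArg Lam.parts h
      simp only [mk_parts] at this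
      exact (Multiset.cons_inj_right _).1 this
    · intro z hz
      simp only [Finset.mem_filter, Finset.mem_univ, true_and] at hz
      obtain ⟨y, hy⟩ := Multiset.exists_cons_of_mem hz.2
      have hyp : ∀ a ∈ y, 0 < a := fun a ha => z.pos (by
        rw [hy]; exact Multiset.mem_cons_of_mem ha)
      have hys : y.sum = n - t := by
        have := z.sum
        rw [hy, Multiset.sum_cons] at this
        omega
      refine ⟨mk y hyp hys, ?_, Lam.ext (by rw [mk_parts, mk_parts, hy])⟩
      simp only [Finset.mem_filter, Finset.mem_univ, true_and, mk_parts]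
      have h2 := hz.1
      rw [le_def, hy, hr] at h2
      exact h2
    · intro y _
      rw [mk_parts, Multiset.erase_cons_head]
  rw [e0]
  by_cases hts : t ≤ s
  · have hp : ∀ a ∈ r0 + pt (s - t), 0 < a := by
      intro a ha
      rcases Multiset.mem_add.1 ha with h | h
      · exact hr0p a h
      · exact pt_pos _ a h
    have hsum : (r0 + pt (s - t)).sum = n - t := by
      rw [Multiset.sum_add, pt_sum, hr0s]
      omega
    have h1 := muM_sum l' hl' hls (r0 + pt (s - t)) hp hsum
    have e : (t ≤ s ∧ l' = r0 + pt (s - t)) ↔ l' = r0 + pt (s - t) := by simp [hts]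
    simp only [e]
    rw [← h1]
    symm
    apply Finset.sum_subset
    · intro y hy
      simp only [Finset.mem_filter, Finset.mem_univ, true_and] at hy ⊢
      exact ref_sep' hts (le_def.1 hy)
    · intro y hy hy'
      by_contra hc
      apply hy'
      simp only [Finset.mem_filter, Finset.mem_univ, true_and] at hy ⊢
      exact (ref_sep (fun a => y.pos) (muM_ne hc) hsep hy).2
  · rw [if_neg (fun h => hts h.1), Finset.sum_eq_zero]
    intro y hy
    by_contra hc
    simp only [Finset.mem_filter, Finset.mem_univ, true_and] at hy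
    exact hts (ref_sep (fun a => y.pos) (muM_ne hc) hsep hy).1

theorem sep {n K : ℕ} (hK0 : 0 < K) (l : Lam n)
    (hK : ∀ A B, A ≤ l.parts → B ≤ l.parts → K + A.sum ≠ B.sum) (lp : Lam (K + n)) (hlp : lp.parts = K ::ₘ l.parts)
    (z : Lam (K + n)) : F K l.parts z.parts = mu lp z := by
  classical
  refine uniq lp (fun z => F K l.parts z.parts) ?_ z
  intro r
  by_cases h : lp ≤ r
  · obtain ⟨P, hP1, hP2⟩ := le_def.1 h
    obtain ⟨Q, hQ, hKQ⟩ := Multiset.mem_join.1 (show K ∈ P.join by
      change K ∈ P.sum; rw [hP1, hlp]; simp)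
    obtain ⟨P', rfl⟩ := Multiset.exists_cons_of_mem hQ
    obtain ⟨C, rfl⟩ := Multiset.exists_cons_of_mem hKQ
    have hCP : C + P'.sum = l.parts := by
      rw [Multiset.sum_cons, Multiset.cons_add, hlp] at hP1
      exact (Multiset.cons_inj_right _).1 hP1
    obtain ⟨s, hsC⟩ : ∃ s, s = C.sum := ⟨_, rfl⟩
    obtain ⟨r0, hr0def⟩ : ∃ r0, r0 = P'.map Multiset.sum := ⟨_, rfl⟩
    have hr : r.parts = (K + s) ::ₘ r0 := by
      rw [← hP2, Multiset.map_cons, Multiset.sum_cons, hsC, hr0def]
    have hCl : C ≤ l.parts := by rw [← hCP]; exact Multiset.le_add_right _ _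
    have hsum := r.sum
    rw [hr, Multiset.sum_cons] at hsum
    have hs : s ≤ n := by omega
    have hr0 : ∀ b ∈ r0, ∃ B, B ≤ l.parts ∧ b = B.sum := by
      intro b hb
      rw [hr0def] at hb
      obtain ⟨B, hB, rfl⟩ := Multiset.mem_map.1 hb
      refine ⟨B, ?_, rfl⟩
      obtain ⟨P'', rfl⟩ := Multiset.exists_cons_of_mem hB
      rw [← hCP, Multiset.sum_cons]
      exact (Multiset.le_add_right B P''.sum).trans (Multiset.le_add_left _ _)
    have hKs : K + s ∉ l.parts := by
      intro hc
      have h1 := hK C {K + s} hCl (Multiset.singleton_le.2 hc)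
      rw [Multiset.sum_singleton, hsC] at h1
      exact h1 rfl
    have e1 : ∑ y ∈ (univ : Finset (Lam (K + n))) with y ≤ r, F K l.parts y.parts =
        ∑ A ∈ l.parts.powerset.toFinset, co A *
          (if A.sum ≤ s ∧ l.parts - A = r0 + pt (s - A.sum) then 1 else 0) := by
      unfold F
      rw [Finset.sum_comm]
      refine Finset.sum_congr rfl fun A hA => ?_
      rw [mem_sub] at hA
      rw [← Finset.mul_sum]
      congr 1
      have h1 := sum_sub hA
      rw [l.sum] at h1
      refine innerS hK0 hs (by omega) r r0 hr _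
        (fun a ha => l.pos (Multiset.mem_of_le tsub_le_self ha)) (by omega) ?_
      intro B hB hc
      obtain ⟨B', hB', h2⟩ := hr0 _ hc
      refine hK (A + B) B' ?_ hB' (by rw [Multiset.sum_add, ← h2]; ring)
      calc A + B ≤ A + (l.parts - A) := Multiset.add_le_add_iff_left.2 hB
        _ = l.parts := add_tsub_cancel_of_le hA
    rw [e1]
    by_cases hle : r0 ≤ l.parts
    · have hE : (l.parts - r0).sum = s := by
        have := sum_sub hle
        rw [l.sum] at this
        omega
      set E := l.parts - r0 with hEdef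
      have e2 : ∑ A ∈ l.parts.powerset.toFinset, co A *
          (if A.sum ≤ s ∧ l.parts - A = r0 + pt (s - A.sum) then 1 else 0) =
          ∑ A ∈ insert E (E.toFinset.image (fun u => E.erase u)), co A := by
        symm
        have hsub : insert E (E.toFinset.image (fun u => E.erase u)) ⊆
            l.parts.powerset.toFinset := by
          intro A hA
          rw [mem_sub]
          rw [Finset.mem_insert, Finset.mem_image] at hA
          rcases hA with rfl | ⟨u, -, rfl⟩
          · exact tsub_le_self
          · exact (Multiset.erase_le _ _).trans tsub_le_self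
        rw [← Finset.sum_subset hsub (f := fun A => co A *
          (if A.sum ≤ s ∧ l.parts - A = r0 + pt (s - A.sum) then 1 else 0))]
        · refine Finset.sum_congr rfl fun A hA => ?_
          rw [if_pos ((cond (fun a => l.pos) hle hE (mem_sub.1 (hsub hA))).2 hA), mul_one]
        · intro A hA hA'
          rw [if_neg (fun hc => hA' ((cond (fun a => l.pos) hle hE (mem_sub.1 hA)).1 hc)),
            mul_zero]
      rw [e2, Finset.sum_insert, Finset.sum_image, co_sum]
      · have hiff : E = 0 ↔ lp = r := by
          constructor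
          · intro h0
            have h1 : s = 0 := by rw [← hE, h0]; simp
            have h2 : l.parts = r0 := by
              have := add_tsub_cancel_of_le hle
              rw [← hEdef, h0, add_zero] at this
              exact this.symm
            apply Lam.ext
            rw [hlp, hr, h1, h2, Nat.add_zero]
          · intro h0
            have h1 : K ::ₘ l.parts = (K + s) ::ₘ r0 := by rw [← hlp, ← hr, h0]
            have h2 : K + s ∈ K ::ₘ l.parts := by rw [h1]; simp
            have h3 : s = 0 := by
              rcases Multiset.mem_cons.1 h2 with h | h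
              · omega
              · exact absurd h hKs
            rw [h3, Nat.add_zero] at h1
            rw [hEdef, (Multiset.cons_inj_right _).1 h1]
            simp
        simp only [hiff]
      · intro u hu v _ huv
        exact erase_inj (Multiset.mem_toFinset.1 hu) huv
      · intro hc
        rw [Finset.mem_image] at hc
        obtain ⟨u, hu, h1⟩ := hc
        have h2 := congrArg Multiset.card h1
        rw [Multiset.mem_toFinset] at hu
        rw [Multiset.card_erase_of_mem hu] at h2
        have := Multiset.card_pos_iff_exists_mem.2 ⟨u, hu⟩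
        rw [Nat.pred_eq_sub_one] at h2
        omega
    · rw [Finset.sum_eq_zero, if_neg]
      · intro h0
        apply hle
        have h1 : K ::ₘ l.parts = (K + s) ::ₘ r0 := by rw [← hlp, ← hr, h0]
        have h2 : K + s ∈ K ::ₘ l.parts := by rw [h1]; simp
        have h3 : s = 0 := by
          rcases Multiset.mem_cons.1 h2 with h | h
          · omega
          · exact absurd h hKs
        rw [h3, Nat.add_zero] at h1
        exact ((Multiset.cons_inj_right _).1 h1).ge
      · intro A hA
        rw [if_neg, mul_zero]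
        rintro ⟨-, h2⟩
        apply hle
        exact (Multiset.le_add_right r0 (pt (s - A.sum))).trans (h2.ge.trans tsub_le_self)
  · rw [if_neg, Finset.sum_eq_zero]
    · intro y hy
      unfold F
      refine Finset.sum_eq_zero fun A hA => ?_
      rw [mem_sub] at hA
      split_ifs with hc
      · have h0 : muM (l.parts - A) (y.parts.erase (K + A.sum)) = 0 := by
          by_contra hne
          simp only [Finset.mem_filter, Finset.mem_univ, true_and] at hy
          apply h
          refine le_trans ?_ hy
          rw [le_def, hlp, ← Multiset.cons_erase hc]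
          have h1 := (Ref.single (K ::ₘ A)).add (muM_ne hne)
          rw [Multiset.cons_add, add_tsub_cancel_of_le hA] at h1
          simpa using h1
        rw [h0, mul_zero]
      · rw [mul_zero]
    · rintro rfl
      exact h le_rfl

end Pool.Agent.K1H55.MB
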