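import Pool.Agent.K1H55.MB.Hook

set_option autoImplicit false

namespace Pool.Agent.K1H55.MB

open Multiset Finset

/-- Moebius functions of isomorphic intervals -/
theorem mu_map {α β : Type} [PartialOrder α] [PartialOrder β] [LocallyFiniteOrder α]
    [LocallyFiniteOrder β] [DecidableEq α] [DecidableEq β] [WellFoundedLT α] (φ : α → β)
    (hφ : ∀ x y, φ x ≤ φ y ↔ x ≤ y) (a b : α)
    (h : ∀ w, φ a ≤ w → w ≤ φ b → ∃ y, φ y = w) :
    IncidenceAlgebra.mu ℤ (φ a) (φ b) = IncidenceAlgebra.mu ℤ a b := by
  have hinj : Function.Injective φ := fun x y hxy =>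
    le_antisymm ((hφ x y).1 hxy.le) ((hφ y x).1 hxy.ge)
  induction b using WellFoundedLT.induction with
  | ind b ih =>
    rw [IncidenceAlgebra.mu_apply, IncidenceAlgebra.mu_apply]
    by_cases hab : a = b
    · rw [if_pos hab, if_pos (by rw [hab])]
    · rw [if_neg hab, if_neg (fun hc => hab (hinj hc))]
      congr 1
      symm
      refine Finset.sum_bij (fun y _ => φ y) ?_ ?_ ?_ ?_
      · intro y hy
        rw [Finset.mem_Ico] at hy ⊢
        exact ⟨(hφ _ _).2 hy.1, lt_of_le_of_ne ((hφ _ _).2 hy.2.le)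
          (fun hc => hy.2.ne (hinj hc))⟩
      · intro y _ z _ hyz
        exact hinj hyz
      · intro w hw
        rw [Finset.mem_Ico] at hw
        obtain ⟨y, rfl⟩ := h w hw.1 hw.2.le
        refine ⟨y, ?_, rfl⟩
        rw [Finset.mem_Ico]
        exact ⟨(hφ _ _).1 hw.1, lt_of_le_of_ne ((hφ _ _).1 hw.2.le)
          (fun hc => hw.2.ne (by rw [hc]))⟩
      · intro y hy
        rw [Finset.mem_Ico] at hy
        refine (ih y hy.2 fun w h1 h2 => h w h1 (h2.trans ((hφ _ _).2 hy.2.le))).symm

/-- the partition with one more part `1` -/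
def addOne {n : ℕ} (z : Lam n) : Lam (n + 1) :=
  mk (1 ::ₘ z.parts) (by
    intro a ha
    rw [Multiset.mem_cons] at ha
    rcases ha with rfl | ha
    · norm_num
    · exact z.pos ha) (by rw [Multiset.sum_cons, z.sum, add_comm])

lemma addOne_parts {n : ℕ} (z : Lam n) : (addOne z).parts = 1 ::ₘ z.parts := rfl

lemma ref_one {l r : Multiset ℕ} (hl : ∀ a ∈ l, 0 < a) (h : Ref l (1 ::ₘ r)) :
    ∃ l', l = 1 ::ₘ l' ∧ Ref l' r := by
  obtain ⟨P, h1, h2⟩ := h
  have h3 : (1 : ℕ) ∈ P.map Multiset.sum := by rw [h2]; simp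
  obtain ⟨Q, hQ, hQ1⟩ := Multiset.mem_map.1 h3
  obtain ⟨P', rfl⟩ := Multiset.exists_cons_of_mem hQ
  rw [Multiset.sum_cons] at h1
  have h4 : P'.map Multiset.sum = r := by
    rw [Multiset.map_cons, hQ1] at h2
    exact (Multiset.cons_inj_right _).1 h2
  have h5 : Q = {1} := by
    have hne : Q ≠ 0 := by rintro rfl; simp at hQ1
    obtain ⟨a, ha⟩ := Multiset.exists_mem_of_ne_zero hne
    obtain ⟨Q', rfl⟩ := Multiset.exists_cons_of_mem ha
    have ha0 := hl a (by rw [← h1]; simp)
    rw [Multiset.sum_cons] at hQ1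
    have hQ' : Q' = 0 := by
      by_contra hc
      obtain ⟨c, hc'⟩ := Multiset.exists_mem_of_ne_zero hc
      have h6 := hl c (by rw [← h1]; simp [hc'])
      have h7 := Multiset.single_le_sum (fun _ _ => Nat.zero_le _) _ hc'
      omega
    subst hQ'
    simp at hQ1
    rw [hQ1]
    simp
  refine ⟨P'.sum, ?_, P', rfl, h4⟩
  rw [← h1, h5]
  simp

theorem mu_addOne {n : ℕ} (l r : Lam n) : mu (addOne l) (addOne r) = mu l r := by
  apply mu_map addOne
  · intro x y
    rw [le_def, le_def, addOne_parts, addOne_parts]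
    constructor
    · intro h
      obtain ⟨l', h1, h2⟩ := ref_one (by
        intro a ha
        rw [Multiset.mem_cons] at ha
        rcases ha with rfl | ha
        · norm_num
        · exact x.pos ha) h
      rw [(Multiset.cons_inj_right _).1 h1]
      exact h2
    · intro h
      have := (Ref.refl {1}).add h
      simpa using this
  · intro w _ h
    rw [le_def, addOne_parts] at h
    obtain ⟨l', h1, h2⟩ := ref_one (fun a => w.pos) h
    refine ⟨mk l' (fun a ha => w.pos (by rw [h1]; exact Multiset.mem_cons_of_mem ha)) ?_, ?_⟩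
    · have := w.sum
      rw [h1, Multiset.sum_cons] at this
      omega
    · exact Lam.ext (by rw [addOne_parts, mk_parts, h1])

/-- the partition with all parts multiplied by `d` -/
def scale {n : ℕ} (d : ℕ) (hd : 1 ≤ d) (z : Lam n) : Lam (d * n) :=
  mk (z.parts.map (d * ·)) (by
    intro a ha
    obtain ⟨b, hb, rfl⟩ := Multiset.mem_map.1 ha
    exact Nat.mul_pos hd (z.pos hb)) (by rw [Multiset.sum_map_mul_left, Multiset.map_id', z.sum])

lemma scale_parts {n : ℕ} (d : ℕ) (hd : 1 ≤ d) (z : Lam n) :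
    (scale d hd z).parts = z.parts.map (d * ·) := rfl

lemma ref_scale {d : ℕ} {l r : Multiset ℕ} (h : Ref (l.map (d * ·)) r) :
    ∃ r', r = r'.map (d * ·) ∧ Ref l r' := by
  obtain ⟨P, h1, rfl⟩ := h
  obtain ⟨R, h2, rfl⟩ := lift (d * ·) P l h1.symm
  refine ⟨R.map Multiset.sum, ?_, R, h2, rfl⟩
  rw [Multiset.map_map, Multiset.map_map]
  apply Multiset.map_congr rfl
  intro B _
  simp only [Function.comp_apply]
  rw [Multiset.sum_map_mul_left, Multiset.map_id']

theorem mu_scale {n : ℕ} (d : ℕ) (hd : 1 ≤ d) (l r : Lam n) :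
    mu (scale d hd l) (scale d hd r) = mu l r := by
  have hinj : Function.Injective (fun x : ℕ => d * x) := fun x y h =>
    Nat.eq_of_mul_eq_mul_left hd h
  apply mu_map (scale d hd)
  · intro x y
    rw [le_def, le_def, scale_parts, scale_parts]
    constructor
    · intro h
      obtain ⟨r', h1, h2⟩ := ref_scale h
      rw [Multiset.map_injective hinj h1]
      exact h2
    · rintro ⟨P, h1, h2⟩
      refine ⟨P.map (fun B => B.map (d * ·)), ?_, ?_⟩
      · rw [← h1]
        clear h1 h2
        induction P using Multiset.induction with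
        | empty => simp
        | cons B P ih => simp [ih]
      · rw [← h2, Multiset.map_map, Multiset.map_map]
        apply Multiset.map_congr rfl
        intro B _
        simp only [Function.comp_apply]
        rw [Multiset.sum_map_mul_left, Multiset.map_id']
  · intro w h _
    rw [le_def, scale_parts] at h
    obtain ⟨r', h1, h2⟩ := ref_scale h
    have h3 : r'.sum = n := by
      have := w.sum
      rw [h1, Multiset.sum_map_mul_left, Multiset.map_id'] at this
      exact Nat.eq_of_mul_eq_mul_left hd this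
    refine ⟨mk r' (fun a ha => ?_) h3, Lam.ext (by rw [scale_parts, mk_parts, h1])⟩
    have := w.pos (a := d * a) (by rw [h1]; exact Multiset.mem_map_of_mem _ ha)
    exact Nat.pos_of_mul_pos_left this

end Pool.Agent.K1H55.MB
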