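import Pool.Agent.K1H55.MB.Sep

set_option autoImplicit false

namespace Pool.Agent.K1H55.MB

open Multiset Finset

lemma H_ones {p : ℕ} (l z : Lam p) (hl : l.parts = replicate p 1) :
    H l z = if z = l then 1 else 0 := by
  have hb : big l.parts = 0 := by rw [hl]; exact big_ones p
  by_cases h : 0 < big z.parts
  · rw [H_zero l z (by omega), if_neg]
    rintro rfl
    omega
  · have h1 : ∀ a ∈ z.parts, a = 1 := by
      intro a ha
      have h2 : big z.parts = 0 := by omega
      have h3 := Multiset.countP_eq_zero.1 h2 a ha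
      have h4 := z.pos ha
      omega
    have h5 : z = l := by
      apply Lam.ext
      rw [hl]
      have h6 := Multiset.eq_replicate_card.2 h1
      have h7 := z.sum
      rw [h6] at h7 ⊢
      simp at h7
      rw [h7]
    rw [if_pos h5, h5]
    unfold H
    have h8 : l.parts.count 2 = 0 := by
      rw [hl, Multiset.count_replicate]
      simp
    rw [h8]
    simp

lemma mu_ones {p : ℕ} (l z : Lam p) (hl : l.parts = replicate p 1) :
    (z.parts = replicate p 1 → mu l z = 1) ∧
    (2 ≤ p → z.parts = 2 ::ₘ replicate (p - 2) 1 → mu l z = -1) ∧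
    (mu l z ≠ 0 → z.parts = replicate p 1 ∨ (2 ≤ p ∧ z.parts = 2 ::ₘ replicate (p - 2) 1)) := by
  refine ⟨?_, ?_, ?_⟩
  · intro h
    have : z = l := Lam.ext (by rw [h, hl])
    rw [this]
    simp
  · intro hp h
    have h2 : 2 ∈ z.parts := by rw [h]; simp
    have h3 : D z = l := by
      apply Lam.ext
      rw [D_parts h2, h, Multiset.erase_cons_head, hl]
      obtain ⟨c, rfl⟩ : ∃ c, p = c + 2 := ⟨p - 2, by omega⟩
      simp [Multiset.replicate_succ]
    have h4 : z ≠ l := by
      rintro rfl
      rw [hl] at h2
      have := Multiset.eq_of_mem_replicate h2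
      omega
    rw [H_rec, H_ones l z hl, H_ones l (D z) hl, if_neg h4, if_pos h2, if_pos h3]
    norm_num
  · intro h
    rw [H_rec, H_ones l z hl, H_ones l (D z) hl] at h
    by_cases h1 : z = l
    · left; rw [h1, hl]
    · right
      rw [if_neg h1] at h
      by_cases h2 : 2 ∈ z.parts
      · by_cases h3 : D z = l
        · have h4 := UD z h2
          rw [h3, hl] at h4
          have h5 : 2 ≤ p := by simpa using h4.1
          refine ⟨h5, ?_⟩
          have h6 := congrArg Lam.parts h4.2
          rw [U_parts (by rw [hl]; simpa using h5), hl] at h6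
          rw [← h6]
          obtain ⟨c, rfl⟩ : ∃ c, p = c + 2 := ⟨p - 2, by omega⟩
          simp [Multiset.replicate_succ]
        · rw [if_pos h2, if_neg h3] at h
          exact absurd rfl h
      · rw [if_neg h2] at h
        exact absurd rfl h

lemma muM_rep {c p : ℕ} (hc : 1 ≤ c) (y : Multiset ℕ) :
    (y = replicate p c → muM (replicate p c) y = 1) ∧
    (2 ≤ p → y = (2 * c) ::ₘ replicate (p - 2) c → muM (replicate p c) y = -1) ∧
    (muM (replicate p c) y ≠ 0 →
      y = replicate p c ∨ (2 ≤ p ∧ y = (2 * c) ::ₘ replicate (p - 2) c)) := by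
  let l : Lam p := mk (replicate p 1) (by
    intro a ha; rw [Multiset.eq_of_mem_replicate ha]; norm_num) (by simp)
  have hl : l.parts = replicate p 1 := rfl
  have hsl : (scale c hc l).parts = replicate p c := by
    rw [scale_parts, hl]; simp
  refine ⟨?_, ?_, ?_⟩
  · rintro rfl
    rw [← hsl, muM_eq]
    simp
  · rintro hp rfl
    let z : Lam p := mk (2 ::ₘ replicate (p - 2) 1) (by
      intro a ha
      rcases Multiset.mem_cons.1 ha with rfl | ha
      · norm_num
      · rw [Multiset.eq_of_mem_replicate ha]; norm_num) (by simp; omega)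
    have hz : (scale c hc z).parts = (2 * c) ::ₘ replicate (p - 2) c := by
      rw [scale_parts]
      show (2 ::ₘ replicate (p - 2) 1).map (c * ·) = _
      simp [mul_comm]
    rw [← hsl, ← hz, muM_eq, mu_scale]
    exact (mu_ones l z hl).2.1 hp rfl
  · intro h
    have h1 := muM_ne h
    have h2 : replicate p c = (replicate p 1).map (c * ·) := by simp
    rw [h2] at h1
    obtain ⟨y', rfl, h3⟩ := ref_scale h1
    have hy' : ∀ a ∈ y', 0 < a := by
      intro a ha
      unfold muM at h
      split_ifs at h with h4
      · have := h4.2.1 (c * a) (Multiset.mem_map_of_mem _ ha)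
        exact Nat.pos_of_mul_pos_left this
      · exact absurd rfl h
    have hs : y'.sum = p := by
      obtain ⟨P, hP1, hP2⟩ := h3
      have h5 : y'.sum = (P.sum).sum := by
        rw [← hP2]
        clear hP1 hP2
        induction P using Multiset.induction with
        | empty => simp
        | cons B P ih => simp [ih]
      rw [h5, hP1]
      simp
    let z : Lam p := mk y' hy' hs
    have hz : (scale c hc z).parts = y'.map (c * ·) := rfl
    rw [← hsl, ← hz, muM_eq, mu_scale] at h
    rcases (mu_ones l z hl).2.2 h with h5 | ⟨h5, h6⟩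
    · left
      have h5' : y' = replicate p 1 := h5
      rw [h5']; simp
    · right
      refine ⟨h5, ?_⟩
      have h6' : y' = 2 ::ₘ replicate (p - 2) 1 := h6
      rw [h6']; simp [mul_comm]

lemma arr_rep (j c : ℕ) : arr (replicate j c) = 1 := by
  have h := arr_spec (replicate j c)
  rcases Nat.eq_zero_or_pos j with rfl | hj
  · simpa using arr_zero
  · have h1 : (replicate j c).toFinset = {c} := by
      ext a
      rw [Multiset.mem_toFinset, Multiset.mem_replicate, Finset.mem_singleton]
      exact ⟨fun h => h.2, fun h => ⟨by omega, h⟩⟩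
    rw [h1] at h
    simp only [Finset.prod_singleton, Multiset.count_replicate_self, Multiset.card_replicate] at h
    have h2 : ((j.factorial : ℕ) : ℤ) ≠ 0 := by
      rw [Nat.cast_ne_zero]; exact Nat.factorial_ne_zero j
    exact mul_left_cancel₀ h2 (by rw [h, mul_one])

lemma le_rep {A : Multiset ℕ} {m c : ℕ} (h : A ≤ replicate m c) :
    ∃ a, a ≤ m ∧ A = replicate a c := by
  refine ⟨Multiset.card A, by simpa using Multiset.card_le_card h, ?_⟩
  exact Multiset.eq_replicate_card.2 fun x hx =>
    Multiset.eq_of_mem_replicate (Multiset.mem_of_le h hx)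

lemma rep_sub {a m c : ℕ} (h : a ≤ m) :
    (replicate m c : Multiset ℕ) - replicate a c = replicate (m - a) c := by
  obtain ⟨b, rfl⟩ := Nat.exists_eq_add_of_le h
  rw [Multiset.replicate_add, add_tsub_cancel_left]
  congr 1
  omega

/-- two sizes, `c` does not divide `K` -/
theorem two_sizes {K c m : ℕ} (hK : 0 < K) (hc : 1 ≤ c) (hcK : ¬ c ∣ K) {n : ℕ} (l z : Lam n)
    (hl : l.parts = K ::ₘ replicate m c) :
    (∀ j, j ≤ m → z.parts = (K + j * c) ::ₘ replicate (m - j) c → mu l z = (-1) ^ j) ∧
    (∀ j, j + 2 ≤ m → z.parts = (K + j * c) ::ₘ (2 * c) ::ₘ replicate (m - 2 - j) c →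
      mu l z = -(-1) ^ j) ∧
    ((∀ j, j ≤ m → z.parts ≠ (K + j * c) ::ₘ replicate (m - j) c) →
      (∀ j, j + 2 ≤ m → z.parts ≠ (K + j * c) ::ₘ (2 * c) ::ₘ replicate (m - 2 - j) c) →
      mu l z = 0) := by
  classical
  have hrep : ∀ a ∈ replicate m c, 0 < a := by
    intro a ha; rw [Multiset.eq_of_mem_replicate ha]; omega
  have hn : n = K + (replicate m c).sum := by
    have := l.sum
    rw [hl, Multiset.sum_cons] at this
    omega
  subst hn
  let L : Lam (replicate m c).sum := mk (replicate m c) hrep rfl
  have hne : ∀ a b : ℕ, K + a * c ≠ b * c := by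
    intro a b h
    apply hcK
    have h1 : c ∣ K + a * c := by rw [h]; exact Dvd.intro_left b rfl
    exact (Nat.dvd_add_left (Dvd.intro_left a rfl)).1 h1
  have hsep : ∀ A B, A ≤ L.parts → B ≤ L.parts → K + A.sum ≠ B.sum := by
    intro A B hA hB
    obtain ⟨a, -, rfl⟩ := le_rep hA
    obtain ⟨b, -, rfl⟩ := le_rep hB
    rw [Multiset.sum_replicate, Multiset.sum_replicate, smul_eq_mul, smul_eq_mul]
    exact hne a b
  have h1 := sep hK L hsep l hl z
  have hF : F K L.parts z.parts = ∑ A ∈ (replicate m c).powerset.toFinset, co A *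
    (if K + A.sum ∈ z.parts then muM (replicate m c - A) (z.parts.erase (K + A.sum)) else 0) := rfl
  rw [hF] at h1
  rw [← h1]
  clear h1 hF
  generalize z.parts = zp
  have hsumr : ∀ a, (replicate a c).sum = a * c := by intro a; simp
  refine ⟨?_, ?_, ?_⟩
  · intro j hj hz
    rw [Finset.sum_eq_single (replicate j c)]
    · rw [hsumr, if_pos (by rw [hz]; simp), hz, Multiset.erase_cons_head, rep_sub hj,
        (muM_rep hc _).1 rfl]
      unfold co
      rw [arr_rep, Multiset.card_replicate]
      ring
    · intro A hA hAj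
      obtain ⟨a, ha, rfl⟩ := le_rep (mem_sub.1 hA)
      rw [hsumr, if_neg, mul_zero]
      rw [hz, Multiset.mem_cons]
      rintro (h | h)
      · apply hAj
        have : a * c = j * c := by omega
        rw [Nat.eq_of_mul_eq_mul_right (by omega) this]
      · have := Multiset.eq_of_mem_replicate h
        exact hne a 1 (by rw [this, one_mul])
    · intro h
      exact absurd (mem_sub.2 (Multiset.replicate_le_replicate c |>.2 hj)) h
  · intro j hj hz
    rw [Finset.sum_eq_single (replicate j c)]
    · rw [hsumr, if_pos (by rw [hz]; simp), hz, Multiset.erase_cons_head, rep_sub (by omega),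
        (muM_rep hc _).2.1 (by omega) (by congr 2; omega)]
      unfold co
      rw [arr_rep, Multiset.card_replicate]
      ring
    · intro A hA hAj
      obtain ⟨a, ha, rfl⟩ := le_rep (mem_sub.1 hA)
      rw [hsumr, if_neg, mul_zero]
      rw [hz, Multiset.mem_cons, Multiset.mem_cons]
      rintro (h | h | h)
      · apply hAj
        have : a * c = j * c := by omega
        rw [Nat.eq_of_mul_eq_mul_right (by omega) this]
      · exact hne a 2 h
      · have := Multiset.eq_of_mem_replicate h
        exact hne a 1 (by rw [this, one_mul])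
    · intro h
      exact absurd (mem_sub.2 (Multiset.replicate_le_replicate c |>.2 (by omega))) h
  · intro h2 h3
    refine Finset.sum_eq_zero fun A hA => ?_
    obtain ⟨a, ha, rfl⟩ := le_rep (mem_sub.1 hA)
    rw [hsumr]
    split_ifs with h4
    · by_contra hc0
      have h5 : muM (replicate m c - replicate a c) (zp.erase (K + a * c)) ≠ 0 := by
        intro h; rw [h, mul_zero] at hc0; exact hc0 rfl
      rw [rep_sub ha] at h5
      rcases (muM_rep hc _).2.2 h5 with h6 | ⟨h6, h7⟩
      · apply h2 a ha
        rw [← h6, Multiset.cons_erase h4]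
      · apply h3 a (by omega)
        rw [← Multiset.cons_erase h4, h7]
        congr 3
        omega
    · rw [mul_zero]

end Pool.Agent.K1H55.MB
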